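import Pool.Agent.V11231.TRF.Fin

/-!
# Triangle detection by circuits with unreliable negations

The definitions used in the statement are in `Pool/Agent/V11231/TRF/Defs.lean` (`EdgeCircuit`:
circuits of AND and OR gates of fan-in two on the bits of a graph and their negations; `size`: the
number of gates; `Accepts`; `acceptProb`, `faultyProb`: the probability of acceptance by a random
circuit of a family, without faults and if each negated input is stuck at `0` independently with
probability `1 / D`; `Loopless`, `edges`, `HasTriangle`), with `Circuit` and `Wire` from
`Pool/Agent/H520R2/NMDefs.lean` and `literals` from `Pool/Agent/V11231/FLT/Slot.lean`.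

Idea of the proof. Replace each vertex of a graph with `m` edges by `10 D` vertices, and each edge by
the faulty pairs between the two classes. A triangle becomes a random tripartite graph, which has a
triangle except with probability `31 / 1000` (second moment), and the number of edges is at most
`10 ^ 4 D m` except with probability `1 / 100`. On such graphs faults only concern pairs that are
edges. So, by a resampling argument, circuits that tolerate random faults become, for fixed faults,
monotone circuits that detect triangles in graphs with `m` edges, and these need `m ^ (3 / 2 - o(1))`
gates by the starting library (`H559R9`).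
-/

set_option autoImplicit false

namespace Pool.Agent.Results.MP_ad5e8e_lc.FaultyNegations

open Pool.Agent.V11231.TRF

/-- Let `0 < θ < 3 / 2`. There is `m0` such that the following holds for all `m ≥ m0`, `D ≥ 1` and
`n` with `400 D ^ 2 m ≤ n ^ 2`. Let a finite family of circuits of AND and OR gates of fan-in two
read the bits of graphs with `n` vertices and the negations of these bits. Suppose that each graph
with at most `10 ^ 4 D m` edges is accepted

* with probability at least `4 / 5` if it has a triangle, even if each negated input is stuck at `0`
  independently with probability `1 / D`,
* with probability at most `1 / 4`, without faults, if it has no triangle.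

Then the average number of gates of the circuits is at least `m ^ θ`. -/
theorem result (θ : ℝ) (hθ : 0 < θ) (h : θ < 3 / 2) :
    ∃ m0 : ℕ, ∀ m D n : ℕ, m0 ≤ m → 1 ≤ D → 400 * D ^ 2 * m ≤ n ^ 2 →
      ∀ (R : Type) [Fintype R] [Nonempty R] (C : R → EdgeCircuit n),
      (∀ y : Sym2 (Fin n) → Bool, Loopless y → edges y ≤ 10 ^ 4 * D * m → HasTriangle y →
        4 / 5 ≤ faultyProb C D y) →
      (∀ y : Sym2 (Fin n) → Bool, Loopless y → edges y ≤ 10 ^ 4 * D * m → ¬ HasTriangle y →
        acceptProb C y ≤ 1 / 4) →
      (m : ℝ) ^ θ ≤ (∑ ρ, ((C ρ).size : ℝ)) / Fintype.card R :=
  tri_fault θ hθ h

end Pool.Agent.Results.MP_ad5e8e_lc.FaultyNegations
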