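import Pool.Agent.V11231.TRI.Main

/-!
# Triangles in sparse graphs: many reads or much memory

We consider Boolean circuits with AND gates of fan-in two, OR gates of any fan-in and negations at
the inputs, whose inputs are the bits of the adjacency matrix of a graph with `n` vertices. Such a
circuit accepts if and only if it has a proof tree all of whose leaves are true literals; the formal
degree in an input bit is the largest number of leaves with this bit, that is, the number of times
this bit is read. Nondeterministic, in particular deterministic, branching programs are such
circuits (the logarithm of the size is the memory, and a bit which is read at most `k` times on every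
path has degree at most `k`), and so are programs with a stack; a proof tree of a circuit may even
read any part of the input again and again in its branches.

The circuits have to recognise the triangle-free graphs, and they have to be correct only for graphs
with at most `2 n` edges, so that the size of the instances in the sense of the problem (vertices plus
edges) is at most `3 n`. (The graphs with a triangle are recognised by a disjunction of conjunctions
of three bits.) Checking all triples is a circuit of polynomial size and formal degree `n - 2` in each
bit. We show that the size is `2 ^ Ω (n)` if the degrees in all bits sum up to `O (n ^ 2)`. So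
algorithms of this kind with a memory of `o (n)` bits must read the bits more than a constant number
of times on average, and with a memory of `O (log n)` bits they must read them `Ω (log n)` times. The
statement holds for each vertex separately: it is enough that the degrees in the `n` bits of one
vertex sum up to at most `k n`, while all the other bits may be read as often as one likes; and then
it remains true for circuits with one-sided randomness and exponentially small acceptance
probability.

The hard instances are a star around the vertex and a matching on the other vertices; the proof is
that of the library module `Pool/Agent/W896/FD/Tri.lean`, which was finished but not handed in, with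
the count of the edges added.
-/

set_option autoImplicit false

namespace Pool.Agent.Results.MP_ad5e8e_lc.FormalDegree

open Pool.Agent.W896.RK Pool.Agent.W896.FD

/-- The graph on `n` vertices has at most `2 n` edges. -/
def Sparse {n : ℕ} (G : SimpleGraph (Fin n)) : Prop := G.edgeSet.ncard ≤ 2 * n

/-- 1. Let `u` be a vertex and `U r` (`r` in a finite nonempty set) circuits none of which accepts a
sparse graph with a triangle, such that every sparse triangle-free graph is accepted by at least a
`2 ^ (- ⌊n / 2 ^ (60 (k + 3))⌋)` fraction of them. If in each `U r` the formal degrees in the bits of
the pairs `{u, v}` sum up to at most `k n`, then some `U r` has `g` gates with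
`n ≤ 2 ^ (60 (k + 3)) (⌊log₂ g⌋ + 1)`.

2. If a circuit accepts exactly the triangle-free graphs among the sparse graphs, and its formal
degrees in all bits sum up to at most `k n ^ 2`, then it has `g` gates with
`n ≤ 2 ^ (60 (2 k + 3)) (⌊log₂ g⌋ + 1)`. -/
theorem result (k n : ℕ) :
    (∀ (u : Fin n) (R : Type) [Fintype R] [Nonempty R] (U : R → Circ (Sym2 (Fin n))),
      (∀ r G, Sparse G → (U r).Val (bits G) (U r).out → G.CliqueFree 3) →
      (∀ G : SimpleGraph (Fin n), Sparse G → G.CliqueFree 3 →
        Nat.card R ≤ 2 ^ (n / 2 ^ (60 * (k + 3))) *
          Nat.card {r // (U r).Val (bits G) (U r).out}) →
      (∀ r, ∃ d : (U r).G → Sym2 (Fin n) → ℕ, IsDeg (U r) id d ∧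
        ∑ v, d (U r).out s(u, v) ≤ k * n) →
      ∃ r, n ≤ 2 ^ (60 * (k + 3)) * (Nat.log 2 (Fintype.card (U r).G) + 1)) ∧
    ∀ U : Circ (Sym2 (Fin n)),
      (∀ G, Sparse G → (U.Val (bits G) U.out ↔ G.CliqueFree 3)) →
      (∃ d : U.G → Sym2 (Fin n) → ℕ, IsDeg U id d ∧ ∑ e, d U.out e ≤ k * n ^ 2) →
      n ≤ 2 ^ (60 * (2 * k + 3)) * (Nat.log 2 (Fintype.card U.G) + 1) :=
  ⟨fun u R _ _ U hU hc hd => Pool.Agent.V11231.TRI.tri_vertex k n u R U hU hc hd,
    fun U hU hd => Pool.Agent.V11231.TRI.tri_total k n U hU hd⟩

end Pool.Agent.Results.MP_ad5e8e_lc.FormalDegree
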