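import Pool.Agent.V11228.KTri

/-!
# Triangles in a sparse graph which is known in advance except for one neighbourhood

Let `H` be a fixed graph with `2 n` vertices. A new vertex is joined to some of the vertices of `H`,
and the question is whether there is a triangle (`plus H y` is the graph, `y` the characteristic
function of the neighbourhood of the new vertex `none`). The inputs are the bits of the adjacency
matrix. The algorithms may depend on `H` in an arbitrary way, so that every preprocessing of `H` is
free of charge; only the `2 n` bits at the new vertex are not known in advance. The graph `H` has no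
triangle and only `2 ^ (O (k)) n` edges, so for constant `k` the size of the instance in the sense of
the problem (vertices plus edges) is `O (n)`. Two models of computation are considered.

* Circuits with AND gates of fan-in two, OR gates of any fan-in and negations at the inputs
  (nondeterministic branching programs and programs with a stack are of this kind). The formal degree
  in an input bit is the largest number of leaves with this bit in a proof tree.
* Tree tensor networks: every leaf of a binary tree reads one bit and holds a vector, depending on
  the bit, with coordinates in `W`, every inner node combines the vectors of its children by any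
  bilinear map; an input is accepted if a linear form of the vector of the root is not zero.
  Contributions of different computations may cancel; the field is arbitrary.

They have to accept the graphs `plus H y` without triangles and none of those with a triangle; they
may be random with one-sided error, and accept with exponentially small probability. If the `2 n` bits
at the new vertex are read at most `k n` times in total, then the memory is at least
`n / 2 ^ (O (k))`. With a memory of `n ^ (1 - ε)` bits one needs `Ω (ε n log n)` reads of these bits;
`H` has at most `n ^ (1 + ε)` edges then. For constant `k` the bound is optimal up to the constant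
factor: with bond dimension `4 ^ n + 1` one can recognise the triangle-free graphs among ALL graphs,
reading each of the bits at the new vertex once.

In the results which were known for these models (`FormalDegree` and `TensorNetworks` for this
problem) the hard graphs are a star and a matching, and the matching is chosen after the reads of the
circuit are fixed: most of the information is in the unknown matching, and its place is not known in
advance.

**Proof.** `H` is a bipartite graph with `n + n` vertices and degrees `2 ^ (O (k))` on one side, chosen
at random, in which every two sets of `n / 2 ^ (O (k))` vertices on the two sides are joined by an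
edge. If the computation is divided into few pieces and these into two sides, there is a large matching
of `H` between the vertices whose bits are read on the one side only and those whose bits are read on
the other side only. The theorems of the modules `Pool/Agent/V11228/OMv*.lean` (my results on
matrix-vector products with a fixed matrix) give the bounds: the graph has no triangle if and only if
`xᵀ M y = 0`, `M` the matrix of `H`, `x` and `y` the two halves of the neighbourhood.
-/

set_option autoImplicit false

open Finset

namespace Pool.Agent.Results.MP_ad5e8e_lc.OneUnknownVertex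

open Pool.Agent.W896.RK Pool.Agent.W896.FD Pool.Agent.TH700.TN Pool.Agent.V11228.KTri

/-- `plus H y` is the graph `H` with a new vertex `none`, which is joined to the vertices `v` with
`y v = true`; `bits G e` says whether `e` is an edge of `G`.

(1) For all `k` and `n` there is a triangle-free graph `H` with `2 n` vertices and at most
`2 ^ (16 k + 26) n` edges such that:
(a) let `U r` (`r` in a finite nonempty set) be circuits none of which accepts a graph `plus H y` with
a triangle, while every triangle-free graph `plus H y` is accepted by at least a
`2 ^ (- ⌊n / 2 ^ (70 (k + 1))⌋)` fraction of them; if in each `U r` the formal degrees in the bits at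
the new vertex sum up to at most `k n`, then some `U r` has `g` gates with
`n ≤ 2 ^ (70 (k + 1)) (⌊log₂ g⌋ + 1)`;
(b) the same is true for tree tensor networks over any fields with at most `k n` leaves which read
these bits, with the bond dimension `|W r|` in place of `g`.

(2) For `0 < ε ≤ 1` and all large `n` there is a triangle-free graph `H` with `2 n` vertices and at
most `n ^ (1 + ε)` edges for which circuits with at most `2 ^ m` gates, or networks of bond dimension
at most `2 ^ m`, whose acceptance probability is at least `2 ^ (- μ)` on the triangle-free graphs
`plus H y`, where `m, μ ≤ n ^ (1 - ε)`, have degrees, or numbers of leaves, whose sum over the bits at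
the new vertex is at least `(ε / 210) n log₂ n` for some `r`.

(3) For every field and `n ≥ 1` there is a network of bond dimension `4 ^ n + 1` with one leaf for
each bit at the new vertex which accepts exactly the triangle-free graphs on the `2 n + 1`
vertices. -/
theorem result :
    (∀ k n : ℕ, ∃ H : SimpleGraph (Fin n ⊕ Fin n),
      H.edgeSet.ncard ≤ 2 ^ (16 * k + 26) * n ∧ H.CliqueFree 3 ∧
      (∀ (R : Type) [Fintype R] [Nonempty R] (U : R → Circ (Sym2 (Option (Fin n ⊕ Fin n)))),
        (∀ r y, (U r).Val (bits (plus H y)) (U r).out → (plus H y).CliqueFree 3) →
        (∀ y, (plus H y).CliqueFree 3 → Nat.card R ≤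
          2 ^ (n / 2 ^ (70 * (k + 1))) *
            Nat.card {r // (U r).Val (bits (plus H y)) (U r).out}) →
        (∀ r, ∃ d : (U r).G → Sym2 (Option (Fin n ⊕ Fin n)) → ℕ, IsDeg (U r) id d ∧
          ∑ v, d (U r).out s(none, some v) ≤ k * n) →
        ∃ r, n ≤ 2 ^ (70 * (k + 1)) * (Nat.log 2 (Fintype.card (U r).G) + 1)) ∧
      (∀ (R : Type) [Fintype R] [Nonempty R] (K W : R → Type) [∀ r, Field (K r)]
          [∀ r, Fintype (W r)] (P : ∀ r, Net (K r) (Sym2 (Option (Fin n ⊕ Fin n))) (W r))
          (a : ∀ r, W r → K r),
        (∀ r y, (P r).value (a r) (bits (plus H y)) ≠ 0 → (plus H y).CliqueFree 3) →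
        (∀ y, (plus H y).CliqueFree 3 → Nat.card R ≤
          2 ^ (n / 2 ^ (70 * (k + 1))) *
            Nat.card {r // (P r).value (a r) (bits (plus H y)) ≠ 0}) →
        (∀ r, ∑ v, (P r).reads s(none, some v) ≤ k * n) →
        ∃ r, n ≤ 2 ^ (70 * (k + 1)) * (Nat.log 2 (Fintype.card (W r)) + 1))) ∧
    (∀ ε : ℝ, 0 < ε → ε ≤ 1 → ∃ n₀ : ℕ, ∀ n ≥ n₀, ∃ H : SimpleGraph (Fin n ⊕ Fin n),
      (H.edgeSet.ncard : ℝ) ≤ (n : ℝ) ^ (1 + ε) ∧ H.CliqueFree 3 ∧
      (∀ m μ : ℕ, (m : ℝ) ≤ (n : ℝ) ^ (1 - ε) → (μ : ℝ) ≤ (n : ℝ) ^ (1 - ε) →
        ∀ (R : Type) [Fintype R] [Nonempty R] (U : R → Circ (Sym2 (Option (Fin n ⊕ Fin n)))),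
        (∀ r, Fintype.card (U r).G ≤ 2 ^ m) →
        (∀ r y, (U r).Val (bits (plus H y)) (U r).out → (plus H y).CliqueFree 3) →
        (∀ y, (plus H y).CliqueFree 3 → Nat.card R ≤
          2 ^ μ * Nat.card {r // (U r).Val (bits (plus H y)) (U r).out}) →
        ∃ r, ∀ d : (U r).G → Sym2 (Option (Fin n ⊕ Fin n)) → ℕ, IsDeg (U r) id d →
          ε / 210 * (n * Real.logb 2 n) ≤ (∑ v, d (U r).out s(none, some v) : ℕ)) ∧
      (∀ m μ : ℕ, (m : ℝ) ≤ (n : ℝ) ^ (1 - ε) → (μ : ℝ) ≤ (n : ℝ) ^ (1 - ε) →
        ∀ (R : Type) [Fintype R] [Nonempty R] (K W : R → Type) [∀ r, Field (K r)]
          [∀ r, Fintype (W r)] (P : ∀ r, Net (K r) (Sym2 (Option (Fin n ⊕ Fin n))) (W r))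
          (a : ∀ r, W r → K r),
        (∀ r, Fintype.card (W r) ≤ 2 ^ m) →
        (∀ r y, (P r).value (a r) (bits (plus H y)) ≠ 0 → (plus H y).CliqueFree 3) →
        (∀ y, (plus H y).CliqueFree 3 → Nat.card R ≤
          2 ^ μ * Nat.card {r // (P r).value (a r) (bits (plus H y)) ≠ 0}) →
        ∃ r, ε / 210 * (n * Real.logb 2 n) ≤ (∑ v, (P r).reads s(none, some v) : ℕ))) ∧
    ∀ (K : Type) [Field K] (n : ℕ), 1 ≤ n →
      ∃ (W : Type) (_ : Fintype W) (P : Net K (Sym2 (Option (Fin n ⊕ Fin n))) W) (a : W → K),
        Fintype.card W = 4 ^ n + 1 ∧ (∀ v, P.reads s(none, some v) = 1) ∧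
          ∀ G : SimpleGraph (Option (Fin n ⊕ Fin n)),
            P.value a (bits G) ≠ 0 ↔ G.CliqueFree 3 :=
  ⟨main, fun _ hε hε1 => asymp hε hε1, fun K _ _ hn => upper K hn⟩

end Pool.Agent.Results.MP_ad5e8e_lc.OneUnknownVertex
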