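import Pool.Agent.V11163.NT.TR

/-!
# Triangles in sparse graphs: many reads or much memory, for tree tensor networks

The inputs are the bits of the adjacency matrix of a graph with `n` vertices and at most `2 n` edges,
so that the size of the instance in the sense of the problem (vertices plus edges) is at most `3 n`.
A tree tensor network (`Net`, `Pool/Agent/TH700/TN/Defs.lean`) is a binary tree. Every leaf reads one
bit and holds a vector for each of its two values; every inner node combines the vectors of its
children by an arbitrary bilinear map; the output is a linear form of the vector of the root. The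
network accepts if the output is not zero. The coefficients are in any field; the dimension `|W|` of
the vectors is the bond dimension, its logarithm is the memory. A bit may be read by many leaves.
Matrix products (weighted automata and oblivious algebraic branching programs of width `|W|`),
dynamic programming over any tree of the input bits, and the counting of solutions modulo a prime by
such programs are of this kind; the contributions of different computations may cancel.

The networks have to accept the sparse triangle-free graphs and no sparse graphs with a triangle. We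
show that the memory is at least `n / 2 ^ (O (k))` if the `n` bits of ONE vertex `u` are read at most
`k` times on average, while all the other bits may be read as often as one likes. So with a memory of
`n ^ (1 - ε)` bits one has to read the bits of each vertex `Ω (ε n log n)` times, and
`Ω (ε n ^ 2 log n)` leaves are needed in total. The first two statements remain true for random
networks with one-sided error and exponentially small acceptance probability. For constant `k` the
bound for one vertex is optimal up to the constant factor: with bond dimension `2 ^ n + 1` one can
recognise the triangle-free graphs, reading each of the bits at `u` once.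

**Proof.** The tree is cut into `O (k ^ 2)` pieces, each of which reads only few of the bits at `u`
which are not read too often; the output is a sum of `|W| ^ (O (k ^ 2))` products of functions of
the pieces (`net_pd`). A coloring of the pieces by two sides gives two sets of neighbours `v` of linear
size whose bits `{u, v}` are read on one side only (`exists_color`). A random placement of a matching
on the other vertices makes many of its pairs cross between the two sets. A graph which consists of a
star around `u` and the matching has a triangle if and only if both ends of a pair are neighbours of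
`u`. If all bits but those of the crossing pairs are fixed, the outputs form a matrix of rank at most
`|W| ^ (O (k ^ 2))` in which all entries `(z, z)` of many `z` are not zero, while for `z ≠ z'` one of
the entries `(z, z')` and `(z', z)` is zero; so the Hadamard product of the matrix with its transpose
is diagonal on these rows, and its rank is at most the square (`rank_sq`).
-/

set_option autoImplicit false

namespace Pool.Agent.Results.MP_ad5e8e_lc.TensorNetworks

open Pool.Agent.W896.FD Pool.Agent.TH700.TN Pool.Agent.V11231.TRI Pool.Agent.V11163.NT.TR

/-- A graph on `n` vertices is `Sparse` if it has at most `2 n` edges.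

(1) Let `u` be a vertex and `T r` (`r` in a finite nonempty set) tree tensor networks over fields
`K r`, with vectors indexed by `W r` and output vectors `a r`, none of which accepts a sparse graph
with a triangle, such that every sparse triangle-free graph is accepted by at least a
`2 ^ (- ⌊n / 2 ^ (60 (k + 3))⌋)` fraction of them. If each `T r` has at most `k n` leaves which read
the bits of the pairs `{u, v}`, then `n ≤ 2 ^ (60 (k + 3)) (⌊log₂ |W r|⌋ + 1)` for some `r`.

(2) For `0 < ε ≤ 1`, all large `n` and every vertex `u`: if such a family has bond dimensions at most
`2 ^ w` and acceptance probability at least `2 ^ (- μ)` on the sparse triangle-free graphs, where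
`w, μ ≤ n ^ (1 - ε)`, then some `T r` has at least `(ε / 540) n log₂ n` leaves which read the bits of
the pairs `{u, v}`.

(3) For `0 < ε ≤ 1` and all large `n`: if a network with bond dimension at most `2 ^ w`, where
`w ≤ n ^ (1 - ε)`, accepts exactly the triangle-free graphs among the sparse graphs, then it has at
least `(ε / 1080) n ^ 2 log₂ n` leaves.

(4) For every field, `n ≥ 2` and every vertex `u` there is a network with bond dimension `2 ^ n + 1`
with one leaf for the bit of each pair `{u, v}` which accepts exactly the triangle-free graphs among
all graphs. -/
theorem result :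
    (∀ (k n : ℕ) (u : Fin n) (R : Type) [Fintype R] [Nonempty R]
        (K W : R → Type) [∀ r, Field (K r)] [∀ r, Fintype (W r)]
        (T : ∀ r, Net (K r) (Sym2 (Fin n)) (W r)) (a : ∀ r, W r → K r),
        (∀ r G, Sparse G → (T r).value (a r) (bits G) ≠ 0 → G.CliqueFree 3) →
        (∀ G : SimpleGraph (Fin n), Sparse G → G.CliqueFree 3 → Nat.card R ≤
          2 ^ (n / 2 ^ (60 * (k + 3))) * Nat.card {r // (T r).value (a r) (bits G) ≠ 0}) →
        (∀ r, ∑ v, (T r).reads s(u, v) ≤ k * n) →
        ∃ r, n ≤ 2 ^ (60 * (k + 3)) * (Nat.log 2 (Fintype.card (W r)) + 1)) ∧
    (∀ ε : ℝ, 0 < ε → ε ≤ 1 → ∃ n₀ : ℕ, ∀ n ≥ n₀,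
      ∀ w μ : ℕ, (w : ℝ) ≤ (n : ℝ) ^ (1 - ε) → (μ : ℝ) ≤ (n : ℝ) ^ (1 - ε) →
      ∀ (u : Fin n) (R : Type) [Fintype R] [Nonempty R] (K W : R → Type) [∀ r, Field (K r)]
        [∀ r, Fintype (W r)] (T : ∀ r, Net (K r) (Sym2 (Fin n)) (W r))
        (a : ∀ r, W r → K r), (∀ r, Fintype.card (W r) ≤ 2 ^ w) →
        (∀ r G, Sparse G → (T r).value (a r) (bits G) ≠ 0 → G.CliqueFree 3) →
        (∀ G : SimpleGraph (Fin n), Sparse G → G.CliqueFree 3 →
          Nat.card R ≤ 2 ^ μ * Nat.card {r // (T r).value (a r) (bits G) ≠ 0}) →
        ∃ r, ε / 540 * (n * Real.logb 2 n) ≤ (∑ v, (T r).reads s(u, v) : ℕ)) ∧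
    (∀ ε : ℝ, 0 < ε → ε ≤ 1 → ∃ n₀ : ℕ, ∀ n ≥ n₀,
      ∀ w : ℕ, (w : ℝ) ≤ (n : ℝ) ^ (1 - ε) →
      ∀ (K W : Type) [Field K] [Fintype W] (T : Net K (Sym2 (Fin n)) W) (a : W → K),
        Fintype.card W ≤ 2 ^ w →
        (∀ G, Sparse G → (T.value a (bits G) ≠ 0 ↔ G.CliqueFree 3)) →
        ε / 1080 * (n ^ 2 * Real.logb 2 n) ≤ (∑ e, T.reads e : ℕ)) ∧
    ∀ (K : Type) [Field K] (n : ℕ), 2 ≤ n → ∀ u : Fin n,
      ∃ (W : Type) (_ : Fintype W) (T : Net K (Sym2 (Fin n)) W) (a : W → K),
        Fintype.card W = 2 ^ n + 1 ∧ (∀ v, T.reads s(u, v) = 1) ∧
          ∀ G : SimpleGraph (Fin n), T.value a (bits G) ≠ 0 ↔ G.CliqueFree 3 :=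
  ⟨fun k n u R _ _ K W _ _ T a hU hc hd => tri_vertex k n u R K W T a hU hc hd,
    fun _ hε hε1 => tri_asym hε hε1, fun _ hε hε1 => tri_total hε hε1,
    fun K _ n hn u => tri_upper K n hn u⟩

end Pool.Agent.Results.MP_ad5e8e_lc.TensorNetworks
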